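import Pool.Agent.helper68.FY.Spec

/-!
# Project fy, row COL (helper84): collisions
-/

set_option autoImplicit false

namespace Pool.Agent.helper68.FY

open Finset

/-- equal values give the relation of `adj h * g` -/
theorem COL_rl (p : ℕ) [Fact p.Prime] (g h : V4) (b y : ZMod p)
    (hg : (g 2 : ZMod p) * b + (g 3 : ZMod p) ≠ 0)
    (hh : (h 2 : ZMod p) * y + (h 3 : ZMod p) ≠ 0) (hz : zz p g b = zz p h y) :
    rl p (am h g) b y := by
  have e1 : (g 0 : ZMod p) * b + (g 1 : ZMod p) =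
      zz p g b * ((g 2 : ZMod p) * b + (g 3 : ZMod p)) := by
    unfold zz; rw [div_mul_cancel₀ _ hg]
  have e2 : (h 0 : ZMod p) * y + (h 1 : ZMod p) =
      zz p g b * ((h 2 : ZMod p) * y + (h 3 : ZMod p)) := by
    rw [hz]; unfold zz; rw [div_mul_cancel₀ _ hh]
  unfold rl am
  simp only [Matrix.cons_val_zero, Matrix.cons_val_one, Matrix.cons_val]
  push_cast
  linear_combination ((h 3 : ZMod p) + y * (h 2 : ZMod p)) * e1 -
    ((g 2 : ZMod p) * b + (g 3 : ZMod p)) * e2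

/-- scaling -/
theorem COL_smul (p : ℕ) [Fact p.Prime] (h : V4) (t : ℤ) (ht : (t : ZMod p) ≠ 0)
    (b y : ZMod p) (hr : rl p (t • h) b y) : rl p h b y := by
  unfold rl at *
  simp only [Pi.smul_apply, smul_eq_mul] at hr
  push_cast at hr
  have : (t : ZMod p) * ((h 0 : ZMod p) * b + (h 1 : ZMod p)) =
      (t : ZMod p) * (y * ((h 2 : ZMod p) * b + (h 3 : ZMod p))) := by
    linear_combination hr
  exact mul_left_cancel₀ ht this

/-- row COL -/
theorem COL (h1 : WS_stmt) : COL_stmt := by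
  classical
  intro p hp Q L D B s hL hLQ hQL hD hs
  have hWS := h1 Q L D (fun h => (pc B.offDiag (rp p h) : ℝ)) s hL hLQ hD
    (fun h => Nat.cast_nonneg _) ?_ ?_
  · refine le_trans ?_ hWS
    have hcol : col p Q L B ≤ ∑ w ∈ NB Q L ×ˢ NB Q L, pc B.offDiag (rp p (am w.2 w.1)) := by
      have h2 : ∑ w ∈ NB Q L ×ˢ NB Q L, pc B.offDiag (rp p (am w.2 w.1)) =
          ((NB Q L ×ˢ NB Q L).sigma (fun w => (B.offDiag ×ˢ B.offDiag).filter
            (fun v => rp p (am w.2 w.1) v.1 v.2))).card := by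
        rw [Finset.card_sigma]
        rfl
      rw [h2]
      unfold col
      refine Finset.card_le_card_of_injOn
        (fun w : (V4 × (ZMod p × ZMod p)) × (V4 × (ZMod p × ZMod p)) =>
          (⟨(w.1.1, w.2.1), (w.1.2, w.2.2)⟩ :
            Sigma (fun _ : V4 × V4 => (ZMod p × ZMod p) × (ZMod p × ZMod p)))) ?_ ?_
      · intro w hw
        obtain ⟨hw1, hw2⟩ := Finset.mem_filter.mp (Finset.mem_coe.mp hw)
        obtain ⟨hw3, hw4⟩ := Finset.mem_product.mp hw1
        obtain ⟨ha1, ha2, ha3⟩ := Finset.mem_filter.mp hw3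
        obtain ⟨hb1, hb2, hb3⟩ := Finset.mem_filter.mp hw4
        obtain ⟨ha4, ha5⟩ := Finset.mem_product.mp ha1
        obtain ⟨hb4, hb5⟩ := Finset.mem_product.mp hb1
        have e1 := congrArg Prod.fst hw2
        have e2 := congrArg Prod.snd hw2
        refine Finset.mem_coe.mpr (Finset.mem_sigma.mpr ⟨Finset.mem_product.mpr ⟨ha4, hb4⟩, ?_⟩)
        refine Finset.mem_filter.mpr ⟨Finset.mem_product.mpr ⟨ha5, hb5⟩, ?_⟩
        exact ⟨COL_rl p _ _ _ _ ha2 hb2 e1, COL_rl p _ _ _ _ ha3 hb3 e2⟩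
      · intro w _ w' _ h
        obtain ⟨⟨g, x⟩, ⟨g', y⟩⟩ := w
        obtain ⟨⟨k, x'⟩, ⟨k', y'⟩⟩ := w'
        simp only [Sigma.mk.injEq, Prod.mk.injEq, heq_eq_eq] at h
        obtain ⟨⟨h1, h2⟩, h3, h4⟩ := h
        subst h1 h2 h3 h4
        rfl
    calc (col p Q L B : ℝ) ≤
        ((∑ w ∈ NB Q L ×ˢ NB Q L, pc B.offDiag (rp p (am w.2 w.1)) : ℕ) : ℝ) := by
          exact_mod_cast hcol
      _ = _ := by push_cast; rfl
  · intro h t _ ht htb
    have hpt : (t : ZMod p) ≠ 0 := by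
      intro h0
      rw [ZMod.intCast_zmod_eq_zero_iff_dvd] at h0
      have h3 := Int.le_of_dvd (abs_pos.mpr ht) ((dvd_abs _ _).mpr h0)
      have h4 : (2 * Q * L : ℤ) < p := by exact_mod_cast hQL
      linarith
    have : pc B.offDiag (rp p (t • h)) ≤ pc B.offDiag (rp p h) := by
      unfold pc
      refine Finset.card_le_card ?_
      intro w hw
      obtain ⟨hw1, hw2⟩ := Finset.mem_filter.mp hw
      exact Finset.mem_filter.mpr ⟨hw1, COL_smul p h t hpt _ _ hw2.1, COL_smul p h t hpt _ _ hw2.2⟩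
    show (pc B.offDiag (rp p (t • h)) : ℝ) ≤ (pc B.offDiag (rp p h) : ℝ)
    exact_mod_cast this
  · intro G hG1 hG2
    have := hs G hG1 hG2
    unfold cnt at this
    push_cast at this
    exact this

end Pool.Agent.helper68.FY
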